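import Pool.Agent.V5helper14.FB.Stm

/-!
# Project FB, job PROD: products of forests
-/

set_option autoImplicit false

namespace Pool.Agent.V5helper37.FB

open Finset Pool.Agent.V5helper14.FB

theorem t_PROD (hACY : S_ACY) : S_PROD := by
  classical
  intro r V _ T hT
  choose g hginj hg using fun i => hACY (V i) (T i) (hT i)
  -- a bound
  obtain ⟨M, hM⟩ : ∃ M : ℕ, ∀ i (v : V i), g i v < M := by
    have h1 : ∀ i, ∃ m : ℕ, ∀ v : V i, g i v < m := by
      intro i
      have := Fintype.ofFinite (V i)
      refine ⟨(univ.sup (g i)) + 1, fun v => ?_⟩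
      exact Nat.lt_succ_of_le (le_sup (f := g i) (mem_univ v))
    choose m hm using h1
    refine ⟨univ.sup m, fun i v => ?_⟩
    exact lt_of_lt_of_le (hm i v) (le_sup (f := m) (mem_univ i))
  let d : ((i : Fin (r + 1)) → V i) → Fin r → Fin M := fun x i => ⟨g i.castSucc (x i.castSucc), hM _ _⟩
  let f : ((i : Fin (r + 1)) → V i) → ℕ := fun x => (finFunctionFinEquiv (d x) : ℕ)
  have hfs : ∀ x, f x = ∑ i : Fin r, g i.castSucc (x i.castSucc) * M ^ (i : ℕ) := by
    intro x
    show ((finFunctionFinEquiv (d x) : Fin (M ^ r)) : ℕ) = _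
    rw [finFunctionFinEquiv_apply]
  have hfa : ∀ x y, f x = f y → ∀ i : Fin r, x i.castSucc = y i.castSucc := by
    intro x y h i
    have h1 : d x = d y := finFunctionFinEquiv.injective (Fin.ext h)
    have h2 := congrArg Fin.val (congrFun h1 i)
    exact hginj _ h2
  have hfa' : ∀ x y, (∀ i : Fin r, x i.castSucc = y i.castSucc) → f x = f y := by
    intro x y h
    rw [hfs, hfs]
    exact sum_congr rfl fun i _ => by rw [h i]
  -- changing one coordinate
  have hfb : ∀ x y (i : Fin r), (∀ j, j ≠ i.castSucc → x j = y j) →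
      g i.castSucc (y i.castSucc) < g i.castSucc (x i.castSucc) → f y < f x := by
    intro x y i h hlt
    rw [hfs, hfs]
    apply sum_lt_sum
    · intro j _
      by_cases hj : j = i
      · subst hj
        exact Nat.mul_le_mul_right _ hlt.le
      · rw [h j.castSucc (fun h' => hj (Fin.castSucc_injective _ h'))]
    · refine ⟨i, mem_univ _, ?_⟩
      have hM0 : 0 < M := lt_of_le_of_lt (Nat.zero_le _) (hM i.castSucc (x i.castSucc))
      exact Nat.mul_lt_mul_of_pos_right hlt (pow_pos hM0 _)
  -- an earlier neighbour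
  have hearly : ∀ v u, (prodG T).Adj v u → f u < f v → ∃ i : Fin r,
      (T i.castSucc).Adj (v i.castSucc) (u i.castSucc) ∧ (∀ j, j ≠ i.castSucc → v j = u j) ∧
      g i.castSucc (u i.castSucc) < g i.castSucc (v i.castSucc) := by
    rintro v u ⟨i, hi, hij⟩ hlt
    have hne : i ≠ Fin.last r := by
      rintro rfl
      have : f v = f u := hfa' _ _ fun j => hij _ (Fin.castSucc_lt_last j).ne
      omega
    obtain ⟨i, rfl⟩ := Fin.exists_castSucc_eq.2 hne
    refine ⟨i, hi, hij, ?_⟩
    by_contra hcon
    have hne' : g i.castSucc (v i.castSucc) ≠ g i.castSucc (u i.castSucc) :=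
      fun h => hi.ne (hginj _ h)
    have h3 : f v < f u := hfb u v i (fun j hj => (hij j hj).symm) (by omega)
    omega
  refine ⟨f, ?_, ?_, ?_⟩
  · intro a
    let φ : ((prodG T).induce {v | f v = a}) →g T (Fin.last r) :=
      { toFun := fun x => x.1 (Fin.last r)
        map_rel' := by
          rintro ⟨x, hx⟩ ⟨y, hy⟩ ⟨i, hi, hij⟩
          have hxy : ∀ j : Fin r, x j.castSucc = y j.castSucc := hfa x y (hx.trans hy.symm)
          by_cases hne : i = Fin.last r
          · subst hne
            exact hi
          · obtain ⟨i, rfl⟩ := Fin.exists_castSucc_eq.2 hne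
            exact absurd (hxy i) hi.ne }
    apply SimpleGraph.IsAcyclic.comap φ _ (hT (Fin.last r))
    rintro ⟨x, hx⟩ ⟨y, hy⟩ hxy
    have hxy' : ∀ j : Fin r, x j.castSucc = y j.castSucc := hfa x y (hx.trans hy.symm)
    have hl : x (Fin.last r) = y (Fin.last r) := hxy
    apply Subtype.ext
    funext j
    exact Fin.lastCases hl hxy' j
  · intro v u u' hu hu' huu hlt
    obtain ⟨i, hi, hij, hgi⟩ := hearly v u hu hlt
    obtain ⟨i', hi', hij', hgi'⟩ := hearly v u' hu' (huu ▸ hlt)
    have h1 := hfa u u' huu
    have hii : i' = i := by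
      by_contra hne
      have h2 : v i.castSucc = u' i.castSucc :=
        hij' _ (fun h => hne (Fin.castSucc_injective _ h).symm)
      rw [← h1 i] at h2
      exact hi.ne h2
    subst hii
    funext j
    by_cases hj : j = i'.castSucc
    · subst hj
      exact h1 i'
    · rw [← hij j hj, ← hij' j hj]
  · intro v
    left
    apply Nat.succ_le_succ
    have hex : ∀ u, ∃ i : Fin (r + 1), (prodG T).Adj v u ∧ f u < f v →
        i ≠ Fin.last r ∧ (T i).Adj (v i) (u i) ∧ (∀ j, j ≠ i → v j = u j) ∧ g i (u i) < g i (v i) := by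
      intro u
      by_cases h : (prodG T).Adj v u ∧ f u < f v
      · obtain ⟨i, hi⟩ := hearly v u h.1 h.2
        exact ⟨i.castSucc, fun _ => ⟨(Fin.castSucc_lt_last i).ne, hi⟩⟩
      · exact ⟨0, fun h' => absurd h' h⟩
    choose idx hidx using hex
    have hcard : ((univ.erase (Fin.last r) : Finset (Fin (r + 1))) : Set (Fin (r + 1))).ncard = r := by
      rw [Set.ncard_coe_finset, card_erase_of_mem (mem_univ _), card_univ, Fintype.card_fin]
      rfl
    calc Set.ncard {u | (prodG T).Adj v u ∧ f u < f v} ≤
        ((univ.erase (Fin.last r) : Finset (Fin (r + 1))) : Set (Fin (r + 1))).ncard := by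
          apply Set.ncard_le_ncard_of_injOn idx _ _ (Finset.finite_toSet _)
          · intro u hu
            have := hidx u hu
            simp [this.1]
          · intro u hu u' hu' huu
            obtain ⟨h1, h2, h3, h4⟩ := hidx u hu
            obtain ⟨h1', h2', h3', h4'⟩ := hidx u' hu'
            rw [← huu] at h2' h3' h4'
            have h5 : u (idx u) = u' (idx u) := hg _ _ _ _ h2 h2' h4 h4'
            funext j
            by_cases hj : j = idx u
            · rw [hj]
              exact h5
            · rw [← h3 j hj, ← h3' j hj]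
      _ = r := hcard

end Pool.Agent.V5helper37.FB
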